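import Pool.Agent.H834.KJ.Act

/-!
# The curve `y² = f(x)` for a separable polynomial of degree five
-/

set_option autoImplicit false
set_option linter.unusedSectionVars false
set_option linter.unusedVariables false

namespace Pool.Agent.H834.ED

open FF Polynomial Module Pool.Agent.Q70.CH Pool.Agent.Q70.KM Pool.Agent.H834.E
  Pool.Agent.H834.KJ

section

variable {k : Type} [Field k] [CharZero k] [IsAlgClosed k] {K : Type} [Field K] [Algebra k K]
  [IsFF k K]

lemma ord_aeval_pole {P : Place k K} {x : K} (hx : P.ord x < 0) (tr : Transcendental k x)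
    {p : k[X]} (hp : p ≠ 0) : P.ord (aeval x p) = p.natDegree * P.ord x := by
  have hne : ∀ p : k[X], p ≠ 0 → aeval x p ≠ 0 := fun p hp h0 => tr ⟨p, hp, h0⟩
  have key : ∀ n : ℕ, ∀ p : k[X], p ≠ 0 → p.natDegree = n → P.ord (aeval x p) = n * P.ord x := by
    intro n
    induction n with
    | zero =>
      intro p hp hn
      obtain ⟨c, rfl⟩ := natDegree_eq_zero.1 hn
      rw [aeval_C, P.ord_const (by rintro rfl; exact hp C_0)]
      norm_num
    | succ n ih =>
      intro p hp hn
      obtain ⟨a, ha⟩ : ∃ a, p.IsRoot a := by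
        apply IsAlgClosed.exists_root
        intro h0
        have := natDegree_eq_zero_iff_degree_le_zero.2 h0.le
        omega
      obtain ⟨p', rfl⟩ := dvd_iff_isRoot.2 ha
      have hp' : p' ≠ 0 := right_ne_zero_of_mul hp
      rw [natDegree_mul (X_sub_C_ne_zero a) hp', natDegree_X_sub_C] at hn
      obtain ⟨h1, h2⟩ := ord_sub_const hx a
      rw [map_mul, map_sub, aeval_X, aeval_C, P.ord_mul h1 (hne p' hp'), ih p' hp' (by omega), h2]
      push_cast
      ring
  exact key _ p hp rfl

/-- The curve `y² = f(x)` with its involution and the point over `x = ∞`. -/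
structure Pre (f : k[X]) (x y : K) (σ : K ≃ₐ[k] K) (W : Place k K) : Prop where
  h : Dbl k f x y
  sep : f.Separable
  deg5 : f.natDegree = 5
  sx : σ x = x
  sy : σ y = -y
  ox : W.ord x = -2
  oy : W.ord y = -5
  reg : Aff W x

theorem exists_pre {f : k[X]} {x y : K} (h : Dbl k f x y) (sep : f.Separable)
    (deg5 : f.natDegree = 5) : ∃ (σ : K ≃ₐ[k] K) (W : Place k K), Pre f x y σ W := by
  classical
  have hf0 : f ≠ 0 := by
    rintro rfl
    rw [natDegree_zero] at deg5
    omega
  have hpole : ∀ P : Place k K, P.ord x < 0 → 2 * P.ord y = 5 * P.ord x := by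
    intro P hP
    have h1 := congrArg P.ord h.eq
    rw [P.ord_pow, ord_aeval_pole hP h.tr hf0, deg5] at h1
    push_cast at h1
    exact h1
  obtain ⟨σ, h1, h2⟩ := h.exists_inv sep (by rw [deg5]; norm_num)
  obtain ⟨S, h3, ⟨O, hO⟩, h4⟩ := h.poles
  have h5 : ∀ w : Place k K, w.ord x < 0 → w.ord x ≤ -2 := by
    intro w hw
    have := hpole w hw
    omega
  have hO' := (h3 O).1 hO
  have h6 : ∀ P : Place k K, P.ord x < 0 → P = O := by
    intro P hP
    by_contra hne
    have h7 : ∑ w ∈ {P, O}, (- w.ord x).toNat ≤ 2 := (Finset.sum_le_sum_of_subset (by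
      intro w hw
      simp only [Finset.mem_insert, Finset.mem_singleton] at hw
      rcases hw with rfl | rfl
      · exact (h3 _).2 hP
      · exact hO)).trans h4
    rw [Finset.sum_pair hne] at h7
    have := h5 P hP
    have := h5 O hO'
    omega
  have h7 : O.ord x = -2 := by
    have h8 : ∑ w ∈ {O}, (- w.ord x).toNat ≤ 2 := (Finset.sum_le_sum_of_subset
      (Finset.singleton_subset_iff.2 hO)).trans h4
    rw [Finset.sum_singleton] at h8
    have := h5 O hO'
    omega
  refine ⟨σ, O, h, sep, deg5, h1, h2, h7, ?_, ?_⟩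
  · have := hpole O hO'
    omega
  · intro P hP
    by_contra hc
    apply hP
    apply h6
    unfold Place.Reg at hc
    push Not at hc
    exact hc.2

namespace Pre

variable {f : k[X]} {x y : K} {σ : K ≃ₐ[k] K} {W : Place k K}

lemma deg (E : Pre f x y σ W) : 0 < f.natDegree := by rw [E.deg5]; norm_num

lemma x_ne (E : Pre f x y σ W) : x ≠ 0 := ne_zero_of_ord (P := W) (by rw [E.ox]; norm_num)

lemma y_ne (E : Pre f x y σ W) : y ≠ 0 := ne_zero_of_ord (P := W) (by rw [E.oy]; norm_num)

lemma ne_W (E : Pre f x y σ W) {P : Place k K} {a : k} (h : At P x a) : P ≠ W := by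
  rintro rfl
  have := (P.reg_iff E.x_ne).1 h.1
  rw [E.ox] at this
  omega

lemma comp_x (E : Pre f x y σ W) {P : Place k K} {a : k} (ha : At P x a) :
    At (P.comp σ) x a := by rw [at_comp, E.sx]; exact ha

lemma comp_y (E : Pre f x y σ W) {P : Place k K} {b : k} (hb : At P y b) :
    At (P.comp σ) y (-b) := by rw [at_comp, E.sy]; exact hb.neg

lemma aeval_ne (E : Pre f x y σ W) {p : k[X]} (hp : p ≠ 0) : aeval x p ≠ 0 :=
  fun h0 => E.h.tr ⟨p, hp, h0⟩

lemma ord_x (E : Pre f x y σ W) {Q : Place k K} {a b : k} (ha : At Q x a) (hb : At Q y b) :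
    (b = 0 → Q.ord (x - algebraMap k K a) = 2) ∧ (b ≠ 0 → Q.ord (x - algebraMap k K a) = 1) :=
  (E.h.over E.sep E.sx E.sy ha hb Q ha).2

lemma ord_y (E : Pre f x y σ W) {P : Place k K} {a : k} (ha : At P x a) (hb : At P y 0) :
    P.ord y = 1 := by
  have h1 := E.h.ord_even E.sep ha (by
    obtain ⟨b', h1, h2⟩ := E.h.y_at ha
    rw [← h2, ← hb.unique h1]; ring)
  have h2 := (E.ord_x ha hb).1 rfl
  omega

/-- The functions with poles only at `W` are the polynomials in `x` and `y`. -/
theorem integral (E : Pre f x y σ W) {u : K} (hu : Aff W u) :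
    ∃ A B : k[X], u = aeval x A + aeval x B * y := by
  classical
  have key : ∀ n : ℕ, ∀ A B D : k[X], D ≠ 0 → D.natDegree = n →
      u * aeval x D = aeval x A + aeval x B * y → ∃ A B : k[X], u = aeval x A + aeval x B * y := by
    intro n
    induction n with
    | zero =>
      intro A B D hD hn h
      obtain ⟨c, rfl⟩ := natDegree_eq_zero.1 hn
      have hc : c ≠ 0 := by
        rintro rfl
        exact hD C_0
      refine ⟨C c⁻¹ * A, C c⁻¹ * B, ?_⟩
      rw [map_mul, map_mul, aeval_C]
      rw [aeval_C] at h
      have h1 : algebraMap k K c⁻¹ * algebraMap k K c = 1 := by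
        rw [← map_mul, inv_mul_cancel₀ hc, map_one]
      calc u = (algebraMap k K c⁻¹ * algebraMap k K c) * u := by rw [h1, one_mul]
        _ = algebraMap k K c⁻¹ * (u * algebraMap k K c) := by ring
        _ = _ := by rw [h]; ring
    | succ n ih =>
      intro A B D hD hn h
      obtain ⟨a, ha⟩ : ∃ a, D.IsRoot a := by
        apply IsAlgClosed.exists_root
        intro h0
        have := natDegree_eq_zero_iff_degree_le_zero.2 h0.le
        omega
      obtain ⟨D', hD'⟩ := dvd_iff_isRoot.2 ha
      obtain ⟨b, hb⟩ : ∃ b : k, b ^ 2 = f.eval a :=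
        IsAlgClosed.exists_pow_nat_eq _ (n := 2) (by norm_num)
      obtain ⟨P, hPx, hPy⟩ := E.h.exists_at E.sep E.deg hb
      have hPO := E.ne_W hPx
      -- the value of `A + B y`
      have hval : ∀ Q : Place k K, At Q x a → Q.Reg u →
          At Q (aeval x A + aeval x B * y) 0 := by
        intro Q hQ hr
        obtain ⟨c, hc⟩ := exists_at hr
        have h1 := hc.mul (hQ.aeval D)
        rw [h, ha.eq_zero, mul_zero] at h1
        exact h1
      have h1 : A.eval a + B.eval a * b = 0 := by
        have h2 := ((hPx.aeval A).add ((hPx.aeval B).mul hPy))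
        exact h2.unique (hval P hPx (hu P hPO))
      have h2 : A.eval a + B.eval a * (-b) = 0 := by
        have hx' := E.comp_x hPx
        have h2 := ((hx'.aeval A).add ((hx'.aeval B).mul (E.comp_y hPy)))
        exact h2.unique (hval _ hx' (hu _ (E.ne_W hx')))
      have hA : A.eval a = 0 := by
        have : (2 : k) * A.eval a = 0 := by linear_combination h1 + h2
        exact (mul_eq_zero.1 this).resolve_left two_ne_zero
      have hB : B.eval a = 0 := by
        by_cases hb0 : b = 0
        · subst hb0
          by_contra hBa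
          have hB0 : B ≠ 0 := by
            rintro rfl
            exact hBa eval_zero
          have ho := (E.ord_x hPx hPy).1 rfl
          have hyo := E.ord_y hPx hPy
          have hge : ∀ p : k[X], p.eval a = 0 → aeval x p = 0 ∨ 2 ≤ P.ord (aeval x p) := by
            intro p hp
            by_cases hp0 : p = 0
            · left; rw [hp0, map_zero]
            · right
              obtain ⟨p', rfl⟩ := dvd_iff_isRoot.2 hp
              have hp' : p' ≠ 0 := right_ne_zero_of_mul hp0
              rw [map_mul, map_sub, aeval_X, aeval_C, P.ord_mul (E.h.xa_ne a) (E.aeval_ne hp'), ho]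
              have := (P.reg_iff (E.aeval_ne hp')).1 (hPx.aeval p').1
              omega
          have h3 : P.ord (aeval x B * y) = 1 := by
            rw [P.ord_mul (E.aeval_ne hB0) E.y_ne, hyo, (hPx.aeval B).ord_eq_zero hBa]
            norm_num
          have hne : aeval x B * y ≠ 0 := mul_ne_zero (E.aeval_ne hB0) E.y_ne
          -- `B y = u D - A`
          have h4 : aeval x B * y = u * aeval x D - aeval x A := by rw [h]; ring
          have h5 : u * aeval x D = 0 ∨ 2 ≤ P.ord (u * aeval x D) := by
            by_cases hu0 : u = 0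
            · left; rw [hu0, zero_mul]
            · right
              rw [P.ord_mul hu0 (E.aeval_ne hD)]
              have h6 := (P.reg_iff hu0).1 (hu P hPO)
              have h7 := (hge D ha).resolve_left (E.aeval_ne hD)
              omega
          have h6 := hge A hA
          rcases h5 with h5 | h5
          · rw [h5, zero_sub] at h4
            rcases h6 with h6 | h6
            · rw [h6, neg_zero] at h4
              exact hne h4
            · rw [h4, P.ord_neg] at h3
              omega
          · rcases h6 with h6 | h6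
            · rw [h6, sub_zero] at h4
              rw [h4] at h3
              omega
            · by_cases e1 : u * aeval x D = 0
              · rw [e1, P.ord_zero] at h5
                omega
              by_cases e2 : aeval x A = 0
              · rw [e2, P.ord_zero] at h6
                omega
              rw [h4] at hne h3
              have h7 := P.ord_sub e1 e2 hne
              rw [h3] at h7
              have h8 : (2 : ℤ) ≤ min (P.ord (u * aeval x D)) (P.ord (aeval x A)) := le_min h5 h6
              omega
        · rw [hA, zero_add] at h1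
          exact (mul_eq_zero.1 h1).resolve_right hb0
      obtain ⟨A', rfl⟩ := dvd_iff_isRoot.2 hA
      obtain ⟨B', rfl⟩ := dvd_iff_isRoot.2 hB
      subst hD'
      have hD0 : D' ≠ 0 := right_ne_zero_of_mul hD
      refine ih A' B' D' hD0 ?_ ?_
      · rw [natDegree_mul (X_sub_C_ne_zero a) hD0, natDegree_X_sub_C] at hn
        omega
      · apply mul_left_cancel₀ (E.h.xa_ne a)
        rw [map_mul, map_mul, map_mul, map_sub, aeval_X, aeval_C] at h
        linear_combination h
  obtain ⟨A, B, D, hD, h⟩ := E.h.decomp E.sep E.deg u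
  exact key _ A B D hD rfl h

end Pre

/-- **The curve `y² = f(x)`.** -/
theorem crv_of_dbl {f : k[X]} {x y : K} (h : Dbl k f x y) (sep : f.Separable)
    (deg5 : f.natDegree = 5) : ∃ (σ : K ≃ₐ[k] K) (W : Place k K), Crv f x y σ W := by
  obtain ⟨σ, W, E⟩ := exists_pre h sep deg5
  exact ⟨σ, W, E.h, E.sep, E.deg5, E.sx, E.sy, E.ox, E.oy, E.reg, fun u hu => E.integral hu⟩

end

end Pool.Agent.H834.ED
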