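import Mathlib

/-!
# The descent
-/

set_option autoImplicit false

namespace Pool.Agent.H834.ED

open Polynomial

lemma sq_of_mul {F : Type} [Field F] {p q B : F[X]} (hc : IsCoprime p q) (h : p * q = B ^ 2) :
    ∃ (v : F) (r : F[X]), v ≠ 0 ∧ p = C v * r ^ 2 := by
  obtain ⟨r, w, hw⟩ := exists_associated_pow_of_mul_eq_pow' hc h
  obtain ⟨v, hv, hvw⟩ := Polynomial.isUnit_iff.1 w.isUnit
  refine ⟨v, r, hv.ne_zero, ?_⟩
  rw [← hw, ← hvw]
  ring

/-- The algebraic part of the two-descent. -/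
theorem desc {F : Type} [Field F] [CharZero F] {S : Finset F} {f : F[X]}
    (hf : f = ∏ e ∈ S, (X - C e)) {a d : F} (hd0 : d ≠ 0) (hSa : ∀ e ∈ S, e ≠ a) {M : ℕ}
    (hM : 0 < M) {A B : F[X]} (hA : A.Monic) (hAM : A.natDegree = M) (hAa : A.eval a ≠ 0)
    (h : A ^ 2 - C d * f * B ^ 2 = (X - C a) ^ (2 * M)) :
    (∃ e ∈ S, ∃ S₁ ⊆ S, e ∉ S₁ ∧ ∃ w : F, w ≠ 0 ∧
      -(e - a) ^ M = d * (∏ e' ∈ S₁, (e - e')) * w ^ 2) ∨
    (Even M ∧ ∃ (u v : F) (p q : F[X]), A + (X - C a) ^ M = C v * p ^ 2 ∧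
      A - (X - C a) ^ M = C u * f * q ^ 2) := by
  classical
  set Z : F[X] := (X - C a) ^ M with hZ
  have hZm : Z.Monic := (monic_X_sub_C a).pow M
  have hZd : Z.natDegree = M := by rw [hZ, natDegree_pow, natDegree_X_sub_C, mul_one]
  set U := A - Z with hU
  set V := A + Z with hV
  have hUV : U * V = C d * (f * B ^ 2) := by
    have e1 : (X - C a) ^ (2 * M) = Z ^ 2 := by rw [hZ, ← pow_mul, mul_comm]
    rw [e1] at h
    rw [hU, hV]
    linear_combination h
  have h2 : (2 : F[X]) = C 2 := (map_ofNat C 2).symm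
  have hf0 : f ≠ 0 := by
    rw [hf]
    exact (monic_prod_of_monic _ _ fun e _ => monic_X_sub_C e).ne_zero
  -- coprime
  have hAZ : IsCoprime A Z := by
    refine IsCoprime.pow_right ?_
    refine (((irreducible_X_sub_C a).coprime_iff_not_dvd).2 ?_).symm
    intro hdvd
    exact hAa (dvd_iff_isRoot.1 hdvd)
  have hUVc : IsCoprime U V := by
    have h4 : IsCoprime U (C 2 * Z) := by
      rw [isCoprime_mul_unit_left_right (isUnit_C.2 (isUnit_iff_ne_zero.2 two_ne_zero))]
      have : U = A + Z * (-1) := by rw [hU]; ring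
      rw [this]
      exact hAZ.add_mul_left_left (-1)
    have : V = C 2 * Z + U * 1 := by rw [hU, hV, ← h2]; ring
    rw [this]
    exact h4.add_mul_left_right 1
  -- the degree of `V`
  have hVlc : V.leadingCoeff = 2 := by
    have h3 : V.coeff M = 2 := by
      rw [hV, coeff_add]
      have e1 : A.coeff M = 1 := by rw [← hAM]; exact hA.coeff_natDegree
      have e2 : Z.coeff M = 1 := by rw [← hZd]; exact hZm.coeff_natDegree
      rw [e1, e2]
      norm_num
    have h4 : V.natDegree ≤ M := by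
      rw [hV]
      refine (natDegree_add_le _ _).trans ?_
      rw [hAM, hZd, max_self]
    have h5 : V.natDegree = M := le_antisymm h4 (le_natDegree_of_ne_zero (by rw [h3]; norm_num))
    rw [leadingCoeff, h5, h3]
  have hV0 : V ≠ 0 := by
    intro h0
    rw [h0, leadingCoeff_zero] at hVlc
    exact two_ne_zero hVlc.symm
  have hVd : V.natDegree = M := by
    have h3 : V.coeff M = 2 := by
      rw [hV, coeff_add]
      have e1 : A.coeff M = 1 := by rw [← hAM]; exact hA.coeff_natDegree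
      have e2 : Z.coeff M = 1 := by rw [← hZd]; exact hZm.coeff_natDegree
      rw [e1, e2]
      norm_num
    have h4 : V.natDegree ≤ M := by
      rw [hV]
      refine (natDegree_add_le _ _).trans ?_
      rw [hAM, hZd, max_self]
    exact le_antisymm h4 (le_natDegree_of_ne_zero (by rw [h3]; norm_num))
  have hU0 : U ≠ 0 := by
    intro h0
    apply hAa
    have : A = Z := by rw [hU, sub_eq_zero] at h0; exact h0
    rw [this, hZ, eval_pow, eval_sub, eval_X, eval_C, sub_self, zero_pow hM.ne']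
  have hB0 : B ≠ 0 := by
    rintro rfl
    rw [zero_pow two_ne_zero, mul_zero, mul_zero] at hUV
    exact (mul_ne_zero hU0 hV0) hUV
  -- the two factors of `f`
  set S₁ := S.filter (fun e => U.eval e = 0) with hS₁
  set S₂ := S.filter (fun e => ¬ U.eval e = 0) with hS₂
  set f₁ := ∏ e ∈ S₁, (X - C e) with hf₁
  set f₂ := ∏ e ∈ S₂, (X - C e) with hf₂
  have hff : f₁ * f₂ = f := by
    rw [hf, hf₁, hf₂, hS₁, hS₂]
    exact Finset.prod_filter_mul_prod_filter_not S _ _
  have hdvd : ∀ (T : Finset F) (P : F[X]), (∀ e ∈ T, P.eval e = 0) →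
      (∏ e ∈ T, (X - C e)) ∣ P := by
    intro T P hT
    refine Finset.prod_dvd_of_coprime ?_ ?_
    · intro e _ e' _ hne
      exact isCoprime_X_sub_C_of_isUnit_sub (sub_ne_zero.2 hne).isUnit
    · intro e he
      exact dvd_iff_isRoot.2 (hT e he)
  have hVS : ∀ e ∈ S₂, V.eval e = 0 := by
    intro e he
    rw [hS₂, Finset.mem_filter] at he
    have h3 := congrArg (Polynomial.eval e) hUV
    have h4 : f.eval e = 0 := by
      rw [hf, eval_prod]
      exact Finset.prod_eq_zero he.1 (by simp)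
    rw [eval_mul, eval_mul, eval_mul, h4, zero_mul, mul_zero] at h3
    exact (mul_eq_zero.1 h3).resolve_left he.2
  obtain ⟨U', hU'⟩ := hdvd S₁ U (fun e he => (Finset.mem_filter.1 he).2)
  obtain ⟨V', hV'⟩ := hdvd S₂ V hVS
  rw [← hf₁] at hU'
  rw [← hf₂] at hV'
  have hUV' : U' * V' = C d * B ^ 2 := by
    apply mul_left_cancel₀ hf0
    rw [← hff]
    rw [← hff, hU', hV'] at hUV
    linear_combination hUV
  have hc : IsCoprime U' V' := by
    refine (hUVc.of_isCoprime_of_dvd_left ⟨f₁, ?_⟩).of_isCoprime_of_dvd_right ⟨f₂, ?_⟩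
    · rw [hU']; ring
    · rw [hV']; ring
  have hdC : (C d⁻¹ * C d : F[X]) = 1 := by rw [← C_mul, inv_mul_cancel₀ hd0, C_1]
  have hdu : IsUnit (C d⁻¹ : F[X]) := isUnit_C.2 (isUnit_iff_ne_zero.2 (inv_ne_zero hd0))
  obtain ⟨v, q, hv0, hq⟩ := sq_of_mul (p := V') (q := C d⁻¹ * U') (B := B)
    ((isCoprime_mul_unit_left_right hdu _ _).2 hc.symm) (by
      linear_combination C d⁻¹ * hUV' + B ^ 2 * hdC)
  obtain ⟨u, p, hu0, hp⟩ := sq_of_mul (p := C d⁻¹ * U') (q := V') (B := B)
    ((isCoprime_mul_unit_left_left hdu _ _).2 hc) (by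
      linear_combination C d⁻¹ * hUV' + B ^ 2 * hdC)
  have hp' : U' = C (d * u) * p ^ 2 := by
    rw [C_mul]
    linear_combination C d * hp - U' * hdC
  by_cases hS : S₂ = ∅
  · right
    have hf2 : f₂ = 1 := by rw [hf₂, hS, Finset.prod_empty]
    rw [hf2, mul_one] at hff
    rw [hf2, one_mul] at hV'
    refine ⟨?_, d * u, v, q, p, ?_, ?_⟩
    · rw [← hVd, hV', hq, natDegree_C_mul hv0, natDegree_pow]
      exact even_two_mul _
    · rw [hV', hq]
    · rw [hU', hp', ← hff]; ring
  · left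
    obtain ⟨e, he⟩ := Finset.nonempty_iff_ne_empty.2 hS
    have he' : e ∈ S ∧ ¬ U.eval e = 0 := by
      rw [hS₂, Finset.mem_filter] at he
      exact he
    refine ⟨e, he'.1, S₁, Finset.filter_subset _ _, fun h3 => he'.2 (Finset.mem_filter.1 h3).2, ?_⟩
    -- `v` is twice a square
    have hl : v * (q.leadingCoeff) ^ 2 = 2 := by
      have h3 : V.leadingCoeff = v * (q.leadingCoeff) ^ 2 := by
        rw [hV', hq, leadingCoeff_mul, leadingCoeff_mul, leadingCoeff_pow, leadingCoeff_C]
        have : f₂.leadingCoeff = 1 := (monic_prod_of_monic _ _ fun e _ => monic_X_sub_C e)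
        rw [this, one_mul]
      rw [← h3, hVlc]
    -- `u v` is a square
    have huv : u * v * (p * q).leadingCoeff ^ 2 = B.leadingCoeff ^ 2 := by
      have h3 : C (u * v) * (p * q) ^ 2 = B ^ 2 := by
        have h4 : C d * (C (u * v) * (p * q) ^ 2) = C d * B ^ 2 := by
          rw [← hUV', hp', hq]
          simp only [C_mul]
          ring
        exact mul_left_cancel₀ (by rw [Ne, C_eq_zero]; exact hd0) h4
      have h5 := congrArg leadingCoeff h3
      rw [leadingCoeff_mul, leadingCoeff_pow, leadingCoeff_pow, leadingCoeff_C] at h5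
      exact h5
    have hq0 : q.leadingCoeff ≠ 0 := by
      intro h0
      rw [h0] at hl
      have : (2 : F) = 0 := by rw [← hl]; ring
      exact two_ne_zero this
    have hp0 : p.leadingCoeff ≠ 0 := by
      intro h0
      rw [leadingCoeff_eq_zero] at h0
      rw [h0] at hp'
      apply hU0
      rw [hU', hp']
      ring
    rw [leadingCoeff_mul] at huv
    set lp := p.leadingCoeff with hlp
    set lq := q.leadingCoeff with hlq
    set lB := B.leadingCoeff with hlB
    have hlB0 : lB ≠ 0 := by rw [hlB, Ne, leadingCoeff_eq_zero]; exact hB0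
    -- `u = 2 r²`
    set r := lB / (2 * lp) with hr
    have hr0 : r ≠ 0 := div_ne_zero hlB0 (mul_ne_zero two_ne_zero hp0)
    have hur : u = 2 * r ^ 2 := by
      rw [hr]
      have h3 : u * 2 * lp ^ 2 = lB ^ 2 := by rw [← huv, ← hl]; ring
      field_simp
      linear_combination h3
    have hVe := hVS e he
    have hAe : A.eval e = -(e - a) ^ M := by
      rw [hV, eval_add, hZ, eval_pow, eval_sub, eval_X, eval_C] at hVe
      exact eq_neg_of_add_eq_zero_left hVe
    have hUe : U.eval e = -2 * (e - a) ^ M := by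
      rw [hU, eval_sub, hAe, hZ, eval_pow, eval_sub, eval_X, eval_C]
      ring
    have hUe2 : U.eval e = (∏ e' ∈ S₁, (e - e')) * (d * u) * (p.eval e) ^ 2 := by
      rw [hU', hp', eval_mul, eval_mul, eval_C, eval_pow, hf₁, eval_prod]
      simp only [eval_sub, eval_X, eval_C]
      ring
    have h3 : -(e - a) ^ M = d * (∏ e' ∈ S₁, (e - e')) * (r * p.eval e) ^ 2 := by
      apply mul_left_cancel₀ (two_ne_zero (α := F))
      rw [hUe, hur] at hUe2
      linear_combination hUe2
    refine ⟨r * p.eval e, ?_, h3⟩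
    intro h0
    rw [h0, zero_pow two_ne_zero, mul_zero, neg_eq_zero] at h3
    exact hSa e he'.1 (sub_eq_zero.1 (pow_eq_zero_iff hM.ne' |>.1 h3))

end Pool.Agent.H834.ED
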