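import Pool.Agent.H834.ED.Crv5
import Pool.Agent.H834.ED.Desc

/-!
# Torsion points of a curve of genus two over quadratic extensions
-/

set_option autoImplicit false
set_option linter.unusedSectionVars false
set_option linter.unusedVariables false

namespace Pool.Agent.H834.ED

open FF Polynomial Module Pool.Agent.Q70.CH Pool.Agent.Q70.KM Pool.Agent.H834.E
  Pool.Agent.H834.KJ

section

variable {k : Type} [Field k] [CharZero k] [IsAlgClosed k] {K : Type} [Field K] [Algebra k K]
  [IsFF k K]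

/-- Functions with the same divisor are proportional. -/
lemma const_of_ord (W : Place k K) {u v : K} (hu : u ≠ 0) (hv : v ≠ 0)
    (h : ∀ P : Place k K, P.ord u = P.ord v) : ∃ c : k, c ≠ 0 ∧ u = algebraMap k K c * v := by
  have h1 : ∀ P : Place k K, P.ord (u / v) = 0 := by
    intro P
    rw [P.ord_div hu hv, h P, sub_self]
  obtain ⟨c, hc⟩ := const_of_reg (W := W) (u := u / v) (fun P _ => Or.inr (h1 P).ge)
    (Or.inr (h1 W).ge)
  refine ⟨c, ?_, ?_⟩
  · rintro rfl
    rw [map_zero, div_eq_zero_iff] at hc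
    exact hc.elim hu hv
  · rw [← hc]
    field_simp

lemma nsmul_dz (W Q : Place k K) (n : ℕ) :
    n • dz W Q = cz (Finsupp.single Q (n : ℤ) - Finsupp.single W (n : ℤ)) := by
  unfold dz
  rw [← map_sub, ← map_nsmul, smul_sub, Finsupp.smul_single, Finsupp.smul_single]
  simp

lemma nsmul_dz_eq_zero {W Q : Place k K} {n : ℕ} : n • dz W Q = 0 ↔
    ∃ t : K, t ≠ 0 ∧ ∀ P : Place k K, P.ord t =
      (Finsupp.single Q (n : ℤ) - Finsupp.single W (n : ℤ) : Place k K →₀ ℤ) P := by
  rw [nsmul_dz, cz_eq_zero]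
  constructor
  · rintro ⟨t, ht, h⟩
    exact ⟨t, ht, fun P => by rw [h, divisor_apply]⟩
  · rintro ⟨t, ht, h⟩
    exact ⟨t, ht, by ext P; rw [divisor_apply, h P]⟩

end

end Pool.Agent.H834.ED

namespace Pool.Agent.H834.KJ.Crv

open FF Polynomial Module Pool.Agent.Q70.CH Pool.Agent.Q70.KM Pool.Agent.H834.E
  Pool.Agent.H834.KJ Pool.Agent.H834.ED

variable {k : Type} [Field k] [CharZero k] [IsAlgClosed k] {K : Type} [Field K] [Algebra k K]
  [IsFF k K] {f : k[X]} {x y : K} {σ : K ≃ₐ[k] K} {W : Place k K}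

lemma aeval_ne (E : Crv f x y σ W) {p : k[X]} (hp : p ≠ 0) : aeval x p ≠ 0 :=
  fun h0 => E.h.tr ⟨p, hp, h0⟩

lemma ord_part (E : Crv f x y σ W) {B : k[X]} (hB : B ≠ 0) :
    aeval x B * y ≠ 0 ∧ W.ord (aeval x B * y) = -2 * B.natDegree - 5 := by
  refine ⟨mul_ne_zero (E.aeval_ne hB) E.y_ne, ?_⟩
  rw [W.ord_mul (E.aeval_ne hB) E.y_ne, ord_aeval E.ox hB, E.oy]
  ring

/-- the coefficients are unique -/
lemma lin_indep (E : Crv f x y σ W) {A B : k[X]} (h : aeval x A + aeval x B * y = 0) :
    A = 0 ∧ B = 0 := by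
  have hB : B = 0 := by
    by_contra hB
    obtain ⟨h1, h2⟩ := E.ord_part hB
    by_cases hA : A = 0
    · rw [hA, map_zero, zero_add] at h
      exact h1 h
    · have h3 := ord_aeval E.ox hA
      rw [eq_neg_of_add_eq_zero_left h, W.ord_neg, h2] at h3
      omega
  subst hB
  rw [map_zero, zero_mul, add_zero] at h
  refine ⟨?_, rfl⟩
  by_contra hA
  exact E.aeval_ne hA h

lemma coeff_eq (E : Crv f x y σ W) {A B A' B' : k[X]}
    (h : aeval x A + aeval x B * y = aeval x A' + aeval x B' * y) : A = A' ∧ B = B' := by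
  have := E.lin_indep (A := A - A') (B := B - B') (by
    rw [map_sub, map_sub]
    linear_combination h)
  exact ⟨sub_eq_zero.1 this.1, sub_eq_zero.1 this.2⟩

lemma sig (E : Crv f x y σ W) (A B : k[X]) :
    σ (aeval x A + aeval x B * y) = aeval x A - aeval x B * y := by
  have h1 : ∀ p : k[X], σ (aeval x p) = aeval x p := by
    intro p
    have : σ (aeval x p) = aeval (σ x) p :=
      (Polynomial.aeval_algHom_apply (σ : K →ₐ[k] K) x p).symm
    rw [this, E.sx]
  rw [map_add, map_mul, h1, h1, E.sy]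
  ring

/-- A function whose divisor is `2 M (Q - W)`. -/
theorem exists_AB (E : Crv f x y σ W) {Q : Place k K} {a c : k} (hQx : At Q x a)
    (hQy : At Q y c) (hc : c ≠ 0) {M : ℕ} (hM : 0 < M) (h : (2 * M) • dz W Q = 0) :
    ∃ A B : k[X], A.Monic ∧ A.natDegree = M ∧ A.eval a ≠ 0 ∧
      A ^ 2 - f * B ^ 2 = (X - C a) ^ (2 * M) ∧
      aeval x A + aeval x B * y ≠ 0 ∧
      ∀ P : Place k K, P.ord (aeval x A + aeval x B * y) =
        (Finsupp.single Q ((2 * M : ℕ) : ℤ) - Finsupp.single W ((2 * M : ℕ) : ℤ) :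
          Place k K →₀ ℤ) P := by
  classical
  obtain ⟨t, ht, hdiv⟩ := nsmul_dz_eq_zero.1 h
  have hQW : Q ≠ W := E.ne_W hQx
  have haff : Aff W t := by
    intro P hP
    refine Or.inr ?_
    rw [hdiv P, Finsupp.sub_apply, Finsupp.single_apply, Finsupp.single_apply,
      if_neg (Ne.symm hP)]
    split_ifs <;> omega
  obtain ⟨A, B, hAB⟩ := E.int t haff
  have hWt : W.ord t = -(2 * M : ℕ) := by
    rw [hdiv W, Finsupp.sub_apply, Finsupp.single_apply, Finsupp.single_apply, if_neg hQW,
      if_pos rfl]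
    ring
  -- the degrees
  have hA0 : A ≠ 0 := by
    rintro rfl
    rw [map_zero, zero_add] at hAB
    have hB0 : B ≠ 0 := by
      rintro rfl
      rw [map_zero, zero_mul] at hAB
      exact ht hAB
    have := (E.ord_part hB0).2
    rw [← hAB, hWt] at this
    omega
  have hdeg : A.natDegree = M ∧ (B = 0 ∨ 5 + 2 * B.natDegree < 2 * M) := by
    have h3 := ord_aeval E.ox hA0
    by_cases hB : B = 0
    · rw [hB, map_zero, zero_mul, add_zero] at hAB
      rw [← hAB, hWt] at h3
      exact ⟨by omega, Or.inl hB⟩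
    · obtain ⟨h1, h2⟩ := E.ord_part hB
      have h4 := E.aeval_ne hA0
      rcases lt_trichotomy (W.ord (aeval x A)) (W.ord (aeval x B * y)) with h5 | h5 | h5
      · have h6 := (W.ord_add_eq h4 h1 h5).2
        rw [← hAB, hWt] at h6
        exact ⟨by omega, Or.inr (by omega)⟩
      · omega
      · have h6 := (W.ord_add_eq h1 h4 h5).2
        rw [add_comm, ← hAB, hWt] at h6
        omega
  -- normalisation
  set l := A.leadingCoeff with hl
  have hl0 : l ≠ 0 := leadingCoeff_ne_zero.2 hA0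
  have hli : l⁻¹ ≠ 0 := inv_ne_zero hl0
  set A' := C l⁻¹ * A with hA'
  set B' := C l⁻¹ * B with hB'
  have hA'm : A'.Monic := by
    rw [Monic, hA', leadingCoeff_mul, leadingCoeff_C, ← hl, inv_mul_cancel₀ hl0]
  have hA'd : A'.natDegree = M := by rw [hA', natDegree_C_mul hli, hdeg.1]
  have ht' : aeval x A' + aeval x B' * y = algebraMap k K l⁻¹ * t := by
    rw [hA', hB', map_mul, map_mul, aeval_C, hAB]
    ring
  have hlK : algebraMap k K l⁻¹ ≠ 0 := by simpa using hl0
  have ht'0 : aeval x A' + aeval x B' * y ≠ 0 := by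
    rw [ht']
    exact mul_ne_zero hlK ht
  have hord : ∀ P : Place k K, P.ord (aeval x A' + aeval x B' * y) =
        (Finsupp.single Q ((2 * M : ℕ) : ℤ) - Finsupp.single W ((2 * M : ℕ) : ℤ) :
          Place k K →₀ ℤ) P := by
    intro P
    rw [ht', P.ord_mul hlK ht, P.ord_const hli, zero_add, hdiv P]
  -- the norm
  have hσ := E.sig A' B'
  have hσ0 : aeval x A' - aeval x B' * y ≠ 0 := by
    rw [← hσ]
    exact (map_ne_zero_iff _ σ.injective).2 ht'0
  have hN : aeval x (A' ^ 2 - f * B' ^ 2) = (aeval x A' + aeval x B' * y) *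
      (aeval x A' - aeval x B' * y) := by
    rw [map_sub, map_mul, map_pow, map_pow, ← E.h.eq]
    ring
  have hordσ : ∀ P : Place k K, P.ord (aeval x A' - aeval x B' * y) =
      (P.comp σ).ord (aeval x A' + aeval x B' * y) := by
    intro P
    rw [← hσ]
    rfl
  have hcomp : ∀ P R : Place k K, R = P.comp σ ↔ R.comp σ = P := by
    intro P R
    constructor
    · rintro rfl
      exact E.comp_comp P
    · rintro rfl
      exact (E.comp_comp R).symm
  have hdx := E.div_x hQx hQy
  have hxa := E.h.xa_ne a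
  obtain ⟨κ, hκ, hκe⟩ := const_of_ord W (u := aeval x (A' ^ 2 - f * B' ^ 2))
    (v := (x - algebraMap k K a) ^ (2 * M)) (by rw [hN]; exact mul_ne_zero ht'0 hσ0)
    (pow_ne_zero _ hxa) (by
      intro P
      rw [hN, P.ord_mul ht'0 hσ0, hordσ, hord, hord, P.ord_pow, ← divisor_apply, hdx]
      simp only [Finsupp.sub_apply, Finsupp.add_apply, Finsupp.single_apply]
      have e1 : (Q = P.comp σ) ↔ (Q.comp σ = P) := hcomp P Q
      have e2 : (W = P.comp σ) ↔ (W = P) := by
        rw [hcomp P W, E.comp_W]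
      simp only [e1, e2]
      push_cast
      split_ifs <;> ring)
  have hpoly : A' ^ 2 - f * B' ^ 2 = C κ * (X - C a) ^ (2 * M) := by
    apply transcendental_iff_injective.1 E.h.tr
    rw [hκe, map_mul, map_pow, map_sub, aeval_X, aeval_C, aeval_C]
  have hκ1 : κ = 1 := by
    have h3 := congrArg (fun p : k[X] => p.coeff (2 * M)) hpoly
    simp only [coeff_sub, coeff_C_mul] at h3
    have e1 : (A' ^ 2).coeff (2 * M) = 1 := by
      have : (A' ^ 2).natDegree = 2 * M := by rw [natDegree_pow, hA'd]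
      rw [← this]
      exact (hA'm.pow 2).coeff_natDegree
    have e2 : (f * B' ^ 2).coeff (2 * M) = 0 := by
      rcases hdeg.2 with h4 | h4
      · rw [hB', h4, mul_zero, zero_pow two_ne_zero, mul_zero, coeff_zero]
      · apply coeff_eq_zero_of_natDegree_lt
        refine lt_of_le_of_lt natDegree_mul_le ?_
        rw [natDegree_pow, hB', natDegree_C_mul hli, E.deg5]
        exact h4
    have e3 : ((X - C a) ^ (2 * M) : k[X]).coeff (2 * M) = 1 := by
      have h5 : ((X - C a) ^ (2 * M) : k[X]).natDegree = 2 * M := by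
        rw [natDegree_pow, natDegree_X_sub_C, mul_one]
      have h6 := ((monic_X_sub_C a).pow (2 * M)).coeff_natDegree
      rwa [h5] at h6
    rw [e1, e2, e3] at h3
    linear_combination -h3
  rw [hκ1, C_1, one_mul] at hpoly
  refine ⟨A', B', hA'm, hA'd, ?_, hpoly, ht'0, hord⟩
  -- the value at `a`
  clear_value A' B'
  intro hAa
  have h3 := congrArg (Polynomial.eval a) hpoly
  rw [eval_sub, eval_pow, eval_mul, eval_pow, eval_pow, eval_sub, eval_X, eval_C, sub_self, hAa,
    zero_pow (by omega : 2 * M ≠ 0), zero_pow two_ne_zero, zero_sub, neg_eq_zero] at h3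
  obtain ⟨c', hc', he⟩ := E.h.y_at hQx
  rw [← hQy.unique hc'] at he
  have h4 : B'.eval a = 0 := by
    rw [← he] at h3
    exact pow_eq_zero_iff two_ne_zero |>.1 ((mul_eq_zero.1 h3).resolve_left (pow_ne_zero 2 hc))
  -- the value at the conjugate point
  have h5 : At (Q.comp σ) (aeval x A' + aeval x B' * y) 0 := by
    have h6 := ((E.comp_x hQx).aeval A').add (((E.comp_x hQx).aeval B').mul (E.comp_y hQy))
    rwa [hAa, h4, zero_mul, add_zero] at h6
  have h6 := (at_zero_iff.1 h5).resolve_left ht'0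
  rw [hord, Finsupp.sub_apply, Finsupp.single_apply, Finsupp.single_apply] at h6
  have h7 : Q ≠ Q.comp σ := by
    intro h8
    have h9 := E.comp_y hQy
    rw [← h8] at h9
    have h10 := hQy.unique h9
    apply hc
    have : (2 : k) * c = 0 := by linear_combination h10
    exact (mul_eq_zero.1 this).resolve_left two_ne_zero
  rw [if_neg h7] at h6
  split_ifs at h6 <;> omega

/-- The Galois action on the function. -/
theorem gal_AB (E : Crv f x y σ W) (F : IntermediateField ℚ k) (hF : ∀ i, f.coeff i ∈ F)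
    {Q : Place k K} {a c : k} (haF : a ∈ F) (hQx : At Q x a)
    (hQy : At Q y c) (hc : c ≠ 0) {M : ℕ} {A B : k[X]} (hA : A.Monic)
    (h0 : aeval x A + aeval x B * y ≠ 0)
    (hord : ∀ P : Place k K, P.ord (aeval x A + aeval x B * y) =
        (Finsupp.single Q ((2 * M : ℕ) : ℤ) - Finsupp.single W ((2 * M : ℕ) : ℤ) :
          Place k K →₀ ℤ) P) (τ : k ≃ₐ[F] k) :
    (∀ i, τ (A.coeff i) = A.coeff i) ∧ ∀ i, τ (B.coeff i / c) = B.coeff i / c := by
  classical
  have hfix : ∀ c ∈ F, τ c = c := fun c hc => τ.commutes ⟨c, hc⟩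
  obtain ⟨Φ, h1, h2, h3⟩ := E.h.exists_semi E.sep E.deg (τ : k ≃+* k) (by
    ext i
    rw [coeff_map]
    exact hfix _ (hF i))
  set T := tw (τ : k ≃+* k) Φ h1 with hT
  have hTW : T W = W := by
    by_contra hne
    have h4 := ((T W).reg_iff E.x_ne).1 (E.reg _ hne)
    have h5 : (T W).ord x = W.ord (Φ x) := rfl
    rw [h5, h2, E.ox] at h4
    omega
  have hTinj : Function.Injective T := by
    intro P P' h
    ext g
    have := congrArg (fun Q : Place k K => Q.ord (Φ.symm g)) h
    change P.ord (Φ (Φ.symm g)) = P'.ord (Φ (Φ.symm g)) at this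
    rwa [Φ.apply_symm_apply] at this
  have hTx : ∀ R : Place k K, At R x a → At (T R) x a := by
    intro R hR
    rw [hT, at_tw, h2]
    have : (τ : k ≃+* k) a = a := hfix a haF
    rw [this]
    exact hR
  have hΦp : ∀ p : k[X], Φ (aeval x p) = aeval x (p.map ((τ : k ≃+* k) : k →+* k)) := by
    intro p
    have e1 : Φ (aeval x p) = p.eval₂ ((Φ : K →+* K).comp (algebraMap k K)) (Φ x) := by
      rw [aeval_def]
      exact Polynomial.hom_eval₂ p (algebraMap k K) (Φ : K →+* K) x
    have e2 : (Φ : K →+* K).comp (algebraMap k K) =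
        (algebraMap k K).comp ((τ : k ≃+* k) : k →+* k) := by
      ext c
      exact h1 c
    rw [e1, e2, h2, aeval_def, eval₂_map]
  set A' := A.map ((τ : k ≃+* k) : k →+* k) with hA'
  set B' := B.map ((τ : k ≃+* k) : k →+* k) with hB'
  have hA'm : A'.Monic := hA.map _
  have hΦt : Φ (aeval x A + aeval x B * y) = aeval x A' + aeval x B' * y := by
    rw [map_add, map_mul, hΦp, hΦp, h3]
  have hΦ0 : aeval x A' + aeval x B' * y ≠ 0 := by
    rw [← hΦt]
    exact (map_ne_zero_iff _ Φ.injective).2 h0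
  have hΦord : ∀ P : Place k K, P.ord (aeval x A' + aeval x B' * y) =
      (T P).ord (aeval x A + aeval x B * y) := by
    intro P
    rw [← hΦt]
    rfl
  have hcoefA : ∀ i, A'.coeff i = τ (A.coeff i) := fun i => coeff_map _ i
  have hcoefB : ∀ i, B'.coeff i = τ (B.coeff i) := fun i => coeff_map _ i
  have hone : ∀ {κ : k} {p q : k[X]}, p.Monic → q.Monic → p = C κ * q → κ = 1 := by
    intro κ p q hp hq h
    have h4 := congrArg leadingCoeff h
    rw [leadingCoeff_mul, leadingCoeff_C, hp.leadingCoeff, hq.leadingCoeff, mul_one] at h4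
    exact h4.symm
  -- the two cases
  have hcc : τ c = c ∨ τ c = -c := by
    obtain ⟨c', hc', he⟩ := E.h.y_at hQx
    rw [← hQy.unique hc'] at he
    have h5 : τ c ^ 2 = c ^ 2 := by
      rw [← map_pow, he]
      apply hfix
      rw [eval_eq_sum_range]
      exact sum_mem fun i _ => mul_mem (hF i) (pow_mem haF i)
    exact sq_eq_sq_iff_eq_or_eq_neg.1 h5
  rcases hcc with hcc | hcc
  · have hTQ : T Q = Q := by
      refine E.ext (hTx Q hQx) ?_ hQx hQy
      rw [hT, at_tw, h3]
      have : (τ : k ≃+* k) c = c := hcc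
      rw [this]
      exact hQy
    obtain ⟨κ, hκ, hκe⟩ := const_of_ord W hΦ0 h0 (by
      intro P
      rw [hΦord, hord, hord, Finsupp.sub_apply, Finsupp.sub_apply]
      simp only [Finsupp.single_apply]
      have e1 : (Q = T P) ↔ (Q = P) := by
        constructor
        · intro h; exact hTinj (by rw [hTQ]; exact h)
        · rintro rfl; exact hTQ.symm
      have e2 : (W = T P) ↔ (W = P) := by
        constructor
        · intro h; exact hTinj (by rw [hTW]; exact h)
        · rintro rfl; exact hTW.symm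
      simp only [e1, e2])
    have h4 := E.coeff_eq (A := A') (B := B') (A' := C κ * A) (B' := C κ * B) (by
      rw [hκe, map_mul, map_mul, aeval_C]
      ring)
    have h5 := hone hA'm hA h4.1
    rw [h5, C_1, one_mul, one_mul] at h4
    refine ⟨fun i => ?_, fun i => ?_⟩
    · rw [← hcoefA, h4.1]
    · rw [map_div₀, ← hcoefB, h4.2, hcc]
  · have hTQ : T (Q.comp σ) = Q := by
      refine E.ext (hTx _ (E.comp_x hQx)) ?_ hQx hQy
      rw [hT, at_tw, h3]
      have : (τ : k ≃+* k) c = -c := hcc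
      rw [this]
      exact E.comp_y hQy
    have hσ := E.sig A B
    have hσ0 : aeval x A - aeval x B * y ≠ 0 := by
      rw [← hσ]
      exact (map_ne_zero_iff _ σ.injective).2 h0
    have hordσ : ∀ P : Place k K, P.ord (aeval x A - aeval x B * y) =
        (P.comp σ).ord (aeval x A + aeval x B * y) := by
      intro P
      rw [← hσ]
      rfl
    obtain ⟨κ, hκ, hκe⟩ := const_of_ord W hΦ0 hσ0 (by
      intro P
      rw [hΦord, hord, hordσ, hord, Finsupp.sub_apply, Finsupp.sub_apply]
      simp only [Finsupp.single_apply]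
      have e1 : (Q = T P) ↔ (Q = P.comp σ) := by
        constructor
        · intro h
          have h4 : Q.comp σ = P := hTinj (by rw [hTQ]; exact h)
          rw [← h4]
          exact (E.comp_comp Q).symm
        · intro h
          rw [h, E.comp_comp] at hTQ
          exact h.trans hTQ.symm
      have e2 : (W = T P) ↔ (W = P.comp σ) := by
        constructor
        · intro h
          have h4 : W = P := hTinj (by rw [hTW]; exact h)
          rw [← h4]
          exact E.comp_W.symm
        · intro h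
          have h4 : P = W := by rw [← E.comp_comp P, ← h, E.comp_W]
          rw [h4]
          exact hTW.symm
      simp only [e1, e2])
    have h4 := E.coeff_eq (A := A') (B := B') (A' := C κ * A) (B' := -(C κ * B)) (by
      rw [hκe, map_neg, map_mul, map_mul, aeval_C]
      ring)
    have h5 := hone hA'm hA h4.1
    rw [h5, C_1, one_mul, one_mul] at h4
    refine ⟨fun i => ?_, fun i => ?_⟩
    · rw [← hcoefA, h4.1]
    · rw [map_div₀, ← hcoefB, h4.2, hcc, coeff_neg, neg_div_neg_eq]

/-- If the function is a square then the point has smaller order. -/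
theorem half (E : Crv f x y σ W) {Q : Place k K} {M : ℕ} {A B Z p q : k[X]} {u v : k}
    (h0 : aeval x A + aeval x B * y ≠ 0) (hf0 : f ≠ 0)
    (hord : ∀ P : Place k K, P.ord (aeval x A + aeval x B * y) =
        (Finsupp.single Q ((2 * M : ℕ) : ℤ) - Finsupp.single W ((2 * M : ℕ) : ℤ) :
          Place k K →₀ ℤ) P)
    (h : A ^ 2 - f * B ^ 2 = Z ^ 2) (hV : A + Z = C v * p ^ 2) (hU : A - Z = C u * f * q ^ 2) :
    M • dz W Q = 0 := by
  classical
  obtain ⟨u', hu'⟩ : ∃ u' : k, u' ^ 2 = u / 2 := IsAlgClosed.exists_pow_nat_eq _ (n := 2) (by norm_num)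
  obtain ⟨v', hv'⟩ : ∃ v' : k, v' ^ 2 = v / 2 := IsAlgClosed.exists_pow_nat_eq _ (n := 2) (by norm_num)
  have hu : u = 2 * u' ^ 2 := by rw [hu']; ring
  have hv : v = 2 * v' ^ 2 := by rw [hv']; ring
  set p₁ := C v' * p with hp₁
  set q₁ := C u' * q with hq₁
  have h2 : (C 2 : k[X]) = 2 := map_ofNat C 2
  have hV' : A + Z = 2 * p₁ ^ 2 := by
    rw [hV, hv, hp₁, ← h2]
    simp only [C_mul, C_pow]
    ring
  have hU' : A - Z = 2 * (f * q₁ ^ 2) := by
    rw [hU, hu, hq₁, ← h2]
    simp only [C_mul, C_pow]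
    ring
  have h2' : (2 : k[X]) ≠ 0 := by rw [← h2, Ne, C_eq_zero]; exact two_ne_zero
  have hA : A = p₁ ^ 2 + f * q₁ ^ 2 := by
    apply mul_left_cancel₀ h2'
    linear_combination hV' + hU'
  have hB : B ^ 2 = (2 * (p₁ * q₁)) ^ 2 := by
    apply mul_left_cancel₀ hf0
    have h3 : (A + Z) * (A - Z) = f * B ^ 2 := by linear_combination h
    rw [hV', hU'] at h3
    linear_combination -h3
  obtain ⟨s, hs⟩ : ∃ s : K, aeval x A + aeval x B * y = s ^ 2 := by
    have e1 : y ^ 2 = aeval x f := E.h.eq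
    rcases sq_eq_sq_iff_eq_or_eq_neg.1 hB with hB | hB
    · refine ⟨aeval x p₁ + aeval x q₁ * y, ?_⟩
      rw [hA, hB]
      simp only [map_add, map_mul, map_pow, map_ofNat]
      linear_combination -(aeval x q₁) ^ 2 * e1
    · refine ⟨aeval x p₁ - aeval x q₁ * y, ?_⟩
      rw [hA, hB]
      simp only [map_add, map_mul, map_pow, map_ofNat, map_neg]
      linear_combination -(aeval x q₁) ^ 2 * e1
  rw [nsmul_dz_eq_zero]
  refine ⟨s, ?_, fun P => ?_⟩
  · rintro rfl
    apply h0
    rw [hs]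
    ring
  · have h3 := hord P
    rw [hs, P.ord_pow, Finsupp.sub_apply, Finsupp.single_apply, Finsupp.single_apply] at h3
    rw [Finsupp.sub_apply, Finsupp.single_apply, Finsupp.single_apply]
    push_cast at h3
    split_ifs at h3 ⊢ <;> omega

/-- **Torsion points over quadratic extensions.** -/
theorem tors (E : Crv f x y σ W) (F : IntermediateField ℚ k) {S : Finset F}
    (hfS : f = ∏ e ∈ S, (X - C (e : k))) {Q : Place k K} {a : F} {c : k} (hQx : At Q x (a : k))
    (hQy : At Q y c) (hcF : c ∉ F) (ht : IsOfFinAddOrder (dz W Q)) :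
    ∃ M : ℕ, 0 < M ∧ ∃ e ∈ S, ∃ S₁ ⊆ S, e ∉ S₁ ∧ ∃ w : F, w ≠ 0 ∧
      -(e - a) ^ M = (∏ e ∈ S, (a - e)) * (∏ e' ∈ S₁, (e - e')) * w ^ 2 := by
  classical
  have hc : c ≠ 0 := by
    rintro rfl
    exact hcF (zero_mem F)
  have hf0 : f ≠ 0 := by
    have := E.deg5
    rintro rfl
    rw [natDegree_zero] at this
    omega
  set f₀ : F[X] := ∏ e ∈ S, (X - C e) with hf₀
  have hf₀m : f₀.map (algebraMap F k) = f := by
    rw [hf₀, hfS, Polynomial.map_prod]
    refine Finset.prod_congr rfl fun e _ => ?_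
    rw [Polynomial.map_sub, map_X, map_C]
    rfl
  have hF : ∀ i, f.coeff i ∈ F := by
    intro i
    rw [← hf₀m, coeff_map]
    exact (f₀.coeff i).2
  set d : F := ∏ e ∈ S, (a - e) with hd
  have hdc : (d : k) = c ^ 2 := by
    obtain ⟨c', hc', he⟩ := E.h.y_at hQx
    rw [hQy.unique hc', he, hfS, eval_prod, hd]
    have : ((∏ e ∈ S, (a - e) : F) : k) = ∏ e ∈ S, ((a : k) - (e : k)) := by
      change algebraMap F k _ = _
      rw [map_prod]
      rfl
    rw [this]
    refine Finset.prod_congr rfl fun e _ => ?_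
    rw [eval_sub, eval_X, eval_C]
  have hd0 : d ≠ 0 := by
    intro h0
    rw [h0] at hdc
    exact hc (pow_eq_zero_iff two_ne_zero |>.1 hdc.symm)
  have hSa : ∀ e ∈ S, e ≠ a := by
    intro e he h0
    apply hd0
    rw [hd]
    exact Finset.prod_eq_zero he (by rw [h0, sub_self])
  -- the minimal `M`
  have hex : ∃ M : ℕ, 0 < M ∧ (2 * M) • dz W Q = 0 := by
    refine ⟨addOrderOf (dz W Q), ht.addOrderOf_pos, ?_⟩
    rw [mul_smul, addOrderOf_nsmul_eq_zero, smul_zero]
  obtain ⟨hM, hMz⟩ := Nat.find_spec hex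
  have hmin : ∀ m < Nat.find hex, ¬ (0 < m ∧ (2 * m) • dz W Q = 0) := fun m hm => Nat.find_min hex hm
  set M := Nat.find hex with hMdef
  clear_value M
  obtain ⟨A, B, hA, hAM, hAa, hN, h0, hord⟩ := E.exists_AB hQx hQy hc hM hMz
  have hgal := fun τ => E.gal_AB F hF a.2 hQx hQy hc hA h0 hord τ
  have hAF : ∀ i, A.coeff i ∈ F := by
    intro i
    obtain ⟨z, hz⟩ := SF.mem_range_of_fixed (T := F) (fun τ : k ≃ₐ[F] k => (hgal τ).1 i)
    rw [← hz]
    exact z.2
  have hBF : ∀ i, B.coeff i / c ∈ F := by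
    intro i
    obtain ⟨z, hz⟩ := SF.mem_range_of_fixed (T := F) (fun τ : k ≃ₐ[F] k => (hgal τ).2 i)
    rw [← hz]
    exact z.2
  obtain ⟨A₀, hA₀⟩ : ∃ A₀ : F[X], A₀.map (algebraMap F k) = A := by
    rw [← mem_lifts]
    rw [lifts_iff_coeff_lifts]
    intro i
    exact ⟨⟨A.coeff i, hAF i⟩, rfl⟩
  obtain ⟨B₀, hB₀⟩ : ∃ B₀ : F[X], B₀.map (algebraMap F k) = C c⁻¹ * B := by
    rw [← mem_lifts]
    rw [lifts_iff_coeff_lifts]
    intro i
    refine ⟨⟨B.coeff i / c, hBF i⟩, ?_⟩
    rw [coeff_C_mul]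
    change B.coeff i / c = _
    rw [div_eq_inv_mul]
  have hB : B = C c * B₀.map (algebraMap F k) := by
    rw [hB₀, ← mul_assoc, ← C_mul, mul_inv_cancel₀ hc, C_1, one_mul]
  have hinj : Function.Injective (Polynomial.map (algebraMap F k)) :=
    map_injective _ (algebraMap F k).injective
  have hN₀ : A₀ ^ 2 - C d * f₀ * B₀ ^ 2 = (X - C a) ^ (2 * M) := by
    apply hinj
    simp only [Polynomial.map_sub, Polynomial.map_mul, Polynomial.map_pow, map_C, map_X]
    rw [hA₀, hf₀m]
    have e1 : (algebraMap F k) a = (a : k) := rfl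
    have e2 : (algebraMap F k) d = c ^ 2 := hdc
    rw [e1, e2, ← hN, hB]
    simp only [C_pow]
    ring
  have hA₀m : A₀.Monic := by
    rw [← hA₀] at hA
    exact monic_of_injective (algebraMap F k).injective hA
  have hA₀M : A₀.natDegree = M := by
    rw [← hAM, ← hA₀, natDegree_map]
  have hA₀a : A₀.eval a ≠ 0 := by
    intro h4
    apply hAa
    rw [← hA₀]
    have : (a : k) = algebraMap F k a := rfl
    rw [this, eval_map, eval₂_at_apply, h4, map_zero]
  rcases desc (f := f₀) hf₀ hd0 hSa hM hA₀m hA₀M hA₀a hN₀ with ⟨e, he, S₁, hS₁, heS, w, hw0, hw⟩ |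
    ⟨heven, u, v, p, q, hV, hU⟩
  · exact ⟨M, hM, e, he, S₁, hS₁, heS, w, hw0, hw⟩
  · exfalso
    have h4 : M • dz W Q = 0 := by
      refine E.half (Z := (X - C (a : k)) ^ M) (p := p.map (algebraMap F k))
        (q := q.map (algebraMap F k)) (u := u) (v := v) h0 hf0 hord ?_ ?_ ?_
      · rw [hN, ← pow_mul, mul_comm]
      · have h5 := congrArg (Polynomial.map (algebraMap F k)) hV
        simp only [Polynomial.map_add, Polynomial.map_sub, Polynomial.map_mul,
          Polynomial.map_pow, map_C, map_X] at h5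
        rw [hA₀] at h5
        exact h5
      · have h5 := congrArg (Polynomial.map (algebraMap F k)) hU
        simp only [Polynomial.map_add, Polynomial.map_sub, Polynomial.map_mul,
          Polynomial.map_pow, map_C, map_X] at h5
        rw [hA₀, hf₀m] at h5
        exact h5
    obtain ⟨m, hm⟩ := heven
    refine hmin m (by omega) ⟨by omega, ?_⟩
    rw [← two_mul] at hm
    rw [← hm]
    exact h4

end Pool.Agent.H834.KJ.Crv
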